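import Pool.Agent.Helper95.AcycPart

set_option autoImplicit false

namespace Pool.Agent.Results.MP_af28a5_co.NoPartition

open Finset Pool.Agent.Helper95.Acyc

universe u

/-- The link of the face `F` in `Δ`: all `G` disjoint from `F` with `G ∪ F ∈ Δ`. -/
def link {n : ℕ} (Δ : Finset (Finset (Fin n))) (F : Finset (Fin n)) : Finset (Finset (Fin n)) :=
  Δ.filter (fun G => Disjoint G F ∧ G ∪ F ∈ Δ)

/-- `Δ` is `j`-acyclic over `k`: the link of every face with at most `j` vertices (including the
empty face, whose link is `Δ`) has vanishing reduced homology over `k`. -/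
def IsJAcyclic {n : ℕ} (k : Type u) [Field k] (j : ℕ) (Δ : Finset (Finset (Fin n))) : Prop :=
  ∀ F ∈ Δ, F.card ≤ j → Acyclic k (link Δ F)

/-- The face poset of `Δ` is a disjoint union of intervals `[G, F]` of length `l`:
every face lies in exactly one of the chosen intervals. -/
def HasIntervalPartition {n : ℕ} (l : ℕ) (Δ : Finset (Finset (Fin n))) : Prop :=
  ∃ P : Finset (Finset (Fin n) × Finset (Fin n)),
    (∀ p ∈ P, p.1 ⊆ p.2 ∧ p.2 ∈ Δ ∧ p.2.card = p.1.card + l) ∧
    ∀ H ∈ Δ, ∃! p, p ∈ P ∧ p.1 ⊆ H ∧ H ⊆ p.2

/-- There is a finite simplicial complex which is `1`-acyclic over every field and whose face poset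
is not a disjoint union of intervals of length `2`. -/
theorem result : ∃ (n : ℕ) (Δ : Finset (Finset (Fin n))), ∅ ∈ Δ ∧ IsDown Δ ∧
    (∀ (k : Type u) [Field k], IsJAcyclic k 1 Δ) ∧ ¬ HasIntervalPartition 2 Δ := by
  classical
  refine ⟨1548, Delta, ?_, ?_, ?_, ?_⟩
  · rw [mem_Delta]; left; simp
  · intro F hF G hG; exact Delta_down F G hF hG
  · intro k _ F hF hcard
    have h01 : F.card = 0 ∨ F.card = 1 := by omega
    rcases h01 with h0 | h1
    · rw [Finset.card_eq_zero] at h0
      have : link Delta F = Delta := by
        unfold link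
        rw [Finset.filter_eq_self]
        intro G hG
        rw [h0]
        exact ⟨Finset.disjoint_empty_right G, by simpa using hG⟩
      rw [this]
      exact (Delta_ok k).2
    · obtain ⟨v, hv⟩ := Finset.card_eq_one.1 h1
      have : link Delta F = Delta.filter (fun G => v ∉ G ∧ insert v G ∈ Delta) := by
        unfold link
        apply Finset.filter_congr
        intro G _
        rw [hv, Finset.disjoint_singleton_right, Finset.union_comm, ← Finset.insert_eq]
      rw [this]
      exact link_acyclic k v
  · rintro ⟨P, h1, h2⟩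
    exact no_partition P h1 h2

end Pool.Agent.Results.MP_af28a5_co.NoPartition
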